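import Mathlib
import Pool.Agent.W463.CI.Stm2

/-! Project CI (owner helper463), part AF1: finitely generated projective modules over a
finite-dimensional algebra are determined by the dimensions of the spaces of homomorphisms. -/

set_option autoImplicit false

namespace Pool.Agent.W509.CI

open Module

universe u v w

variable (F : Type u) [Field F] (A : Type v) [Ring A] [Algebra F A]

theorem hom_finite (N T : Type w) [AddCommGroup N] [Module F N] [Module A N]
    [IsScalarTower F A N] [AddCommGroup T] [Module F T] [Module A T] [IsScalarTower F A T]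
    [Module.Finite F N] [Module.Finite F T] : Module.Finite F (N →ₗ[A] T) :=
  Module.Finite.of_injective (LinearMap.restrictScalarsₗ F A N T F)
    (LinearMap.restrictScalars_injective F)

theorem finrank_hom_prod (N K S T : Type w) [AddCommGroup N] [Module F N] [Module A N]
    [IsScalarTower F A N] [AddCommGroup T] [Module F T] [Module A T] [IsScalarTower F A T]
    [AddCommGroup K] [Module F K] [Module A K] [IsScalarTower F A K]
    [AddCommGroup S] [Module F S] [Module A S] [IsScalarTower F A S]
    [Module.Finite F K] [Module.Finite F S] [Module.Finite F T] (e : N ≃ₗ[A] (K × S)) :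
    finrank F (N →ₗ[A] T) = finrank F (K →ₗ[A] T) + finrank F (S →ₗ[A] T) := by
  have := hom_finite F A K T
  have := hom_finite F A S T
  rw [(e.congrLeft T F).finrank_eq, ← (LinearMap.coprodEquiv (R := A) (M := K) (M₂ := S)
    (M₃ := T) F).finrank_eq, Module.finrank_prod]

theorem split (N S : Type w) [AddCommGroup N] [Module A N] [AddCommGroup S] [Module A S]
    [IsSemisimpleModule A N] (g : N →ₗ[A] S) (hg : Function.Surjective g) :
    Nonempty (N ≃ₗ[A] (LinearMap.ker g × S)) := by
  obtain ⟨C, hC⟩ := exists_isCompl (LinearMap.ker g)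
  have e1 := (Submodule.prodEquivOfIsCompl _ _ hC).symm
  have e2 := (Submodule.quotientEquivOfIsCompl _ _ hC).symm
  have e3 := g.quotKerEquivOfSurjective hg
  exact ⟨e1.trans (LinearEquiv.prodCongr (LinearEquiv.refl A _) (e2.trans e3))⟩

theorem ss : ∀ (n : ℕ) (N1 N2 : Type w) [AddCommGroup N1] [Module F N1] [Module A N1]
    [IsScalarTower F A N1] [Module.Finite F N1] [IsSemisimpleModule A N1] [AddCommGroup N2]
    [Module F N2] [Module A N2] [IsScalarTower F A N2] [Module.Finite F N2]
    [IsSemisimpleModule A N2], finrank F N1 = n →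
    (∀ (S : Type w) [AddCommGroup S] [Module F S] [Module A S] [IsScalarTower F A S]
      [Module.Finite F S] [IsSimpleModule A S],
      finrank F (N1 →ₗ[A] S) = finrank F (N2 →ₗ[A] S)) → Nonempty (N1 ≃ₗ[A] N2) := by
  intro n
  induction n using Nat.strong_induction_on with
  | _ n ih =>
    intro N1 N2 _ _ _ _ _ _ _ _ _ _ _ _ hn h
    have : Module.Finite A N1 := Module.Finite.of_restrictScalars_finite F A N1
    have : Module.Finite A N2 := Module.Finite.of_restrictScalars_finite F A N2
    rcases subsingleton_or_nontrivial N1 with h1 | h1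
    · rcases subsingleton_or_nontrivial N2 with h2 | h2
      · exact ⟨LinearEquiv.ofSubsingleton N1 N2⟩
      · exfalso
        obtain ⟨m, hm, -⟩ :=
          (eq_top_or_exists_le_coatom (⊥ : Submodule A N2)).resolve_left bot_ne_top
        have : IsSimpleModule A (N2 ⧸ m) := isSimpleModule_iff_isCoatom.mpr hm
        have := hom_finite F A N2 (N2 ⧸ m)
        have h3 := h (N2 ⧸ m)
        rw [finrank_zero_of_subsingleton] at h3
        have h4 : Subsingleton (N2 →ₗ[A] (N2 ⧸ m)) := finrank_zero_iff.1 h3.symm
        have h5 : m.mkQ = 0 := Subsingleton.elim _ _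
        have h6 : m = ⊤ := by
          rw [← Submodule.ker_mkQ m, h5, LinearMap.ker_zero]
        exact hm.1 h6
    · obtain ⟨m, hm, -⟩ :=
          (eq_top_or_exists_le_coatom (⊥ : Submodule A N1)).resolve_left bot_ne_top
      have hS : IsSimpleModule A (N1 ⧸ m) := isSimpleModule_iff_isCoatom.mpr hm
      have := hom_finite F A N1 (N1 ⧸ m)
      have := hom_finite F A N2 (N1 ⧸ m)
      have h3 := h (N1 ⧸ m)
      have h4 : Nontrivial (N1 →ₗ[A] (N1 ⧸ m)) := by
        refine ⟨m.mkQ, 0, fun h5 => hm.1 ?_⟩
        rw [← Submodule.ker_mkQ m, h5, LinearMap.ker_zero]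
      have h5 : 0 < finrank F (N2 →ₗ[A] (N1 ⧸ m)) := by
        rw [← h3]
        exact finrank_pos
      have h6 : Nontrivial (N2 →ₗ[A] (N1 ⧸ m)) := finrank_pos_iff.1 h5
      obtain ⟨g, hg⟩ := exists_ne (0 : N2 →ₗ[A] (N1 ⧸ m))
      have hgs : Function.Surjective g := (LinearMap.surjective_or_eq_zero g).resolve_right hg
      obtain ⟨e1⟩ := split A N1 (N1 ⧸ m) m.mkQ (Submodule.mkQ_surjective m)
      obtain ⟨e2⟩ := split A N2 (N1 ⧸ m) g hgs
      have f1 : Module.Finite F (LinearMap.ker m.mkQ) :=
        Module.Finite.of_injective ((LinearMap.ker m.mkQ).subtype.restrictScalars F)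
          Subtype.val_injective
      have f2 : Module.Finite F (LinearMap.ker g) :=
        Module.Finite.of_injective ((LinearMap.ker g).subtype.restrictScalars F)
          Subtype.val_injective
      have hlt : finrank F (LinearMap.ker m.mkQ) < n := by
        have e3 := (e1.restrictScalars F).finrank_eq
        rw [Module.finrank_prod, hn] at e3
        have : Nontrivial (N1 ⧸ m) := IsSimpleModule.nontrivial A _
        have : 0 < finrank F (N1 ⧸ m) := finrank_pos
        omega
      obtain ⟨e⟩ := ih _ hlt (LinearMap.ker m.mkQ) (LinearMap.ker g) rfl (by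
        intro T _ _ _ _ _ _
        have a1 := finrank_hom_prod F A N1 (LinearMap.ker m.mkQ) (N1 ⧸ m) T e1
        have a2 := finrank_hom_prod F A N2 (LinearMap.ker g) (N1 ⧸ m) T e2
        have a3 := h T
        omega)
      exact ⟨e1.trans ((LinearEquiv.prodCongr e (LinearEquiv.refl A _)).trans e2.symm)⟩

theorem finrank_hom_jac (P S : Type w) [AddCommGroup P] [Module F P] [Module A P]
    [IsScalarTower F A P] [AddCommGroup S] [Module F S] [Module A S] [IsScalarTower F A S]
    [IsSimpleModule A S] :
    finrank F ((P ⧸ Module.jacobson A P) →ₗ[A] S) = finrank F (P →ₗ[A] S) := by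
  let φ : ((P ⧸ Module.jacobson A P) →ₗ[A] S) →ₗ[F] (P →ₗ[A] S) :=
    { toFun := fun g => g ∘ₗ (Module.jacobson A P).mkQ
      map_add' := fun g h => by ext x; rfl
      map_smul' := fun c g => by ext x; rfl }
  refine (LinearEquiv.ofBijective φ ⟨?_, ?_⟩).finrank_eq
  · intro g h hgh
    ext x
    exact LinearMap.congr_fun hgh x
  · intro f
    refine ⟨(Module.jacobson A P).liftQ f ?_, ?_⟩
    · exact IsSemisimpleModule.jacobson_le_ker A A P S f
    · ext x
      rfl

theorem surj_lift (P Q : Type w) [AddCommGroup P] [Module A P] [AddCommGroup Q] [Module A Q]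
    [Module.Finite A Q] [Module.Projective A P]
    (e : (P ⧸ Module.jacobson A P) ≃ₗ[A] (Q ⧸ Module.jacobson A Q)) :
    ∃ f : P →ₗ[A] Q, Function.Surjective f := by
  obtain ⟨f, hf⟩ := Module.projective_lifting_property (Module.jacobson A Q).mkQ
    (e.toLinearMap ∘ₗ (Module.jacobson A P).mkQ) (Submodule.mkQ_surjective _)
  refine ⟨f, LinearMap.range_eq_top.1 ?_⟩
  by_contra hne
  obtain ⟨m, hm, hle⟩ := (eq_top_or_exists_le_coatom (LinearMap.range f)).resolve_left hne
  apply hm.1
  rw [eq_top_iff]
  intro y _
  have hj : Module.jacobson A Q ≤ m := sInf_le hm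
  obtain ⟨x', hx'⟩ := e.surjective ((Module.jacobson A Q).mkQ y)
  obtain ⟨x, rfl⟩ := Submodule.mkQ_surjective _ x'
  have h1 : (Module.jacobson A Q).mkQ (f x) = (Module.jacobson A Q).mkQ y := by
    have := LinearMap.congr_fun hf x
    rw [LinearMap.comp_apply] at this
    rw [this]
    exact hx'
  have h2 : y - f x ∈ Module.jacobson A Q := by
    rw [← Submodule.ker_mkQ (Module.jacobson A Q), LinearMap.mem_ker, map_sub, h1, sub_self]
  have h3 : y = (y - f x) + f x := by abel
  rw [h3]
  exact m.add_mem (hj h2) (hle ⟨x, rfl⟩)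

theorem af1 : W463.CI.AF1.{u, v, w} := by
  intro F _ A _ _ _ P Q _ _ _ _ _ _ _ _ _ _ _ _ h
  have fP : Module.Finite F P := Module.Finite.trans A P
  have fQ : Module.Finite F Q := Module.Finite.trans A Q
  have aP : IsArtinian A P := isArtinian_of_tower F inferInstance
  have aQ : IsArtinian A Q := isArtinian_of_tower F inferInstance
  have sP : IsSemisimpleModule A (P ⧸ Module.jacobson A P) :=
    (IsArtinian.isSemisimpleModule_iff_jacobson A (P ⧸ Module.jacobson A P)).2
      (Module.jacobson_quotient_jacobson A P)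
  have sQ : IsSemisimpleModule A (Q ⧸ Module.jacobson A Q) :=
    (IsArtinian.isSemisimpleModule_iff_jacobson A (Q ⧸ Module.jacobson A Q)).2
      (Module.jacobson_quotient_jacobson A Q)
  have gP : Module.Finite F (P ⧸ Module.jacobson A P) := inferInstance
  have gQ : Module.Finite F (Q ⧸ Module.jacobson A Q) := inferInstance
  obtain ⟨e⟩ := ss F A _ (P ⧸ Module.jacobson A P) (Q ⧸ Module.jacobson A Q) rfl (by
    intro S _ _ _ _ _ _
    rw [finrank_hom_jac F A P S, finrank_hom_jac F A Q S]
    exact h S)
  obtain ⟨f, hf⟩ := surj_lift A P Q e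
  obtain ⟨g, hg⟩ := surj_lift A Q P e.symm
  have h1 : finrank F Q ≤ finrank F P :=
    LinearMap.finrank_le_finrank_of_surjective (f := f.restrictScalars F) hf
  have h2 : finrank F P ≤ finrank F Q :=
    LinearMap.finrank_le_finrank_of_surjective (f := g.restrictScalars F) hg
  have h3 : Function.Injective (f.restrictScalars F) :=
    (LinearMap.injective_iff_surjective_of_finrank_eq_finrank (le_antisymm h2 h1)).2 hf
  exact ⟨LinearEquiv.ofBijective f ⟨h3, hf⟩⟩

end Pool.Agent.W509.CI
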